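import Mathlib

set_option autoImplicit false

namespace Pool.Agent.Results.MP_12d26a_nt.Spectrum

open Filter Topology

/-- the real `w` for which the uniform system is solvable for all large `X` -/
def uniformSet (ζ α : ℝ) : Set ℝ :=
  {w | ∃ X₀ : ℝ, ∀ X : ℝ, X₀ ≤ X → ∃ x₀ x₁ : ℤ, 1 ≤ x₁ ∧ (x₁ : ℝ) ≤ X ∧
    |α + x₀ + ζ * x₁| ≤ X ^ (-w)}

/-- the uniform inhomogeneous exponent -/
noncomputable def uniformExponent (ζ α : ℝ) : EReal :=
  sSup ((fun w : ℝ => (w : EReal)) '' uniformSet ζ α)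

/-- the spectrum, the shifts `α` in `ℤ + ℤ ζ` being excluded -/
def spectrum (ζ : ℝ) : Set EReal :=
  {c | ∃ α : ℝ, (∀ a b : ℤ, α ≠ a + b * ζ) ∧ uniformExponent ζ α = c}

/-- dependent choice of the data -/
lemma exists_data (ζ : ℝ) (R : ℕ → ℤ → ℕ → ℕ → Prop)
    (h : ∀ (i S : ℕ) (δ : ℝ), 0 < δ → ∃ (p : ℤ) (q b : ℕ), 4 * S + 1 ≤ q ∧ 1 ≤ b ∧
      0 < |q * ζ - p| ∧ b * |q * ζ - p| ≤ δ ∧ b * |q * ζ - p| ≤ 1 / (8 * q) ∧ R i p q b) :
    ∃ (p : ℕ → ℤ) (q b S : ℕ → ℕ), S 0 = 0 ∧ (∀ i, S (i + 1) = S i + b i * q i) ∧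
      (∀ i, 4 * S i + 1 ≤ q i) ∧ (∀ i, 1 ≤ b i) ∧ (∀ i, 0 < |q i * ζ - p i|) ∧
      (∀ i, b (i + 1) * |q (i + 1) * ζ - p (i + 1)| ≤ b i * |q i * ζ - p i| / 16) ∧
      (∀ i, b i * |q i * ζ - p i| ≤ 1 / (8 * q i)) ∧ (∀ i, R i (p i) (q i) (b i)) := by
  have h' : ∀ (i : ℕ) (s : ℕ × {δ : ℝ // 0 < δ}), ∃ t : ℤ × ℕ × ℕ, 4 * s.1 + 1 ≤ t.2.1 ∧
      1 ≤ t.2.2 ∧ 0 < |t.2.1 * ζ - t.1| ∧ t.2.2 * |t.2.1 * ζ - t.1| ≤ s.2.1 ∧
      t.2.2 * |t.2.1 * ζ - t.1| ≤ 1 / (8 * t.2.1) ∧ R i t.1 t.2.1 t.2.2 := by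
    rintro i ⟨S, δ, hδ⟩
    obtain ⟨p, q, b, hh⟩ := h i S δ hδ
    exact ⟨(p, q, b), hh⟩
  choose T hT1 hT2 hT3 hT4 hT5 hT6 using h'
  have hpos : ∀ i s, 0 < (T i s).2.2 * |(T i s).2.1 * ζ - (T i s).1| / 16 := by
    intro i s
    have h1 : (0 : ℝ) < (T i s).2.2 := by
      have := hT2 i s
      exact_mod_cast this
    have := mul_pos h1 (hT3 i s)
    linarith
  let st : ℕ → ℕ × {δ : ℝ // 0 < δ} := fun n => Nat.rec (0, ⟨1, one_pos⟩)
    (fun i s => (s.1 + (T i s).2.2 * (T i s).2.1,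
      ⟨(T i s).2.2 * |(T i s).2.1 * ζ - (T i s).1| / 16, hpos i s⟩)) n
  refine ⟨fun i => (T i (st i)).1, fun i => (T i (st i)).2.1, fun i => (T i (st i)).2.2,
    fun i => (st i).1, rfl, fun i => rfl, fun i => hT1 i _, fun i => hT2 i _, fun i => hT3 i _,
    fun i => ?_, fun i => hT5 i _, fun i => hT6 i _⟩
  exact hT4 (i + 1) (st (i + 1))

/-- **Main lemma.** The number `α` built from the data. -/
lemma exists_alpha (ζ : ℝ) (p : ℕ → ℤ) (q b S : ℕ → ℕ) (hS0 : S 0 = 0)
    (hS : ∀ i, S (i + 1) = S i + b i * q i) (hSq : ∀ i, 4 * S i + 1 ≤ q i) (hb : ∀ i, 1 ≤ b i)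
    (hη : ∀ i, 0 < |q i * ζ - p i|)
    (hdec : ∀ i, b (i + 1) * |q (i + 1) * ζ - p (i + 1)| ≤ b i * |q i * ζ - p i| / 16)
    (hsmall : ∀ i, b i * |q i * ζ - p i| ≤ 1 / (8 * q i)) :
    ∃ α : ℝ, (∀ u v : ℤ, α ≠ u + v * ζ) ∧
      (∀ k, ∃ x₀ : ℤ, |α + x₀ + ζ * ((S k : ℕ) : ℤ)| ≤ 2 * (b k * |q k * ζ - p k|)) ∧
      (∀ k, ∀ x₀ x₁ : ℤ, 1 ≤ x₁ → 2 * (x₁ : ℝ) ≤ b k * q k →
        b k * |q k * ζ - p k| / 4 ≤ |α + x₀ + ζ * x₁|) := by
  set e : ℕ → ℝ := fun i => b i * |q i * ζ - p i| with he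
  set f : ℕ → ℝ := fun i => b i * (q i * ζ - p i) with hf
  have hfe : ∀ i, |f i| = e i := by
    intro i
    rw [hf, he]
    simp only
    rw [abs_mul, Nat.abs_cast]
  have he0 : ∀ i, 0 < e i := fun i => mul_pos (by exact_mod_cast hb i) (hη i)
  have hgeo : ∀ k j, e (k + j) ≤ e k * (1 / 16) ^ j := by
    intro k j
    induction j with
    | zero => simp
    | succ j ih =>
      have h1 := hdec (k + j)
      rw [pow_succ]
      have : e (k + (j + 1)) ≤ e (k + j) / 16 := h1
      linarith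
  have hsume : ∀ k, Summable (fun j => e (k + j)) := by
    intro k
    refine Summable.of_nonneg_of_le (fun j => (he0 _).le) (hgeo k) ?_
    exact (summable_geometric_of_lt_one (by norm_num) (by norm_num)).mul_left _
  have htsume : ∀ k, ∑' j, e (k + j) ≤ 16 / 15 * e k := by
    intro k
    refine ((hsume k).tsum_le_tsum (hgeo k)
      ((summable_geometric_of_lt_one (by norm_num) (by norm_num)).mul_left _)).trans ?_
    rw [tsum_mul_left, tsum_geometric_of_lt_one (by norm_num) (by norm_num)]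
    have := he0 k
    norm_num
    linarith
  have hsumf : ∀ k, Summable (fun j => f (k + j)) := by
    intro k
    refine Summable.of_norm_bounded (hsume k) (fun j => ?_)
    rw [Real.norm_eq_abs, hfe]
  have htf : ∀ k, |∑' j, f (k + j)| ≤ 16 / 15 * e k := by
    intro k
    rw [← Real.norm_eq_abs]
    refine (norm_tsum_le_tsum_norm ?_).trans ?_
    · simp_rw [Real.norm_eq_abs, hfe]
      exact hsume k
    · simp_rw [Real.norm_eq_abs, hfe]
      exact htsume k
  -- the sum of the numerators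
  let P : ℕ → ℤ := fun k => ∑ i ∈ Finset.range k, (b i : ℤ) * p i
  have hSsum : ∀ k, (S k : ℝ) = ∑ i ∈ Finset.range k, (b i : ℝ) * q i := by
    intro k
    induction k with
    | zero => simp [hS0]
    | succ k ih =>
      rw [Finset.sum_range_succ, ← ih, hS k]
      push_cast
      ring
  have hpart : ∀ k, ∑ i ∈ Finset.range k, f i = S k * ζ - P k := by
    intro k
    rw [hSsum k]
    simp only [P, hf]
    push_cast
    rw [Finset.sum_mul, ← Finset.sum_sub_distrib]
    exact Finset.sum_congr rfl fun i _ => by ring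
  have hf0 : Summable f := by simpa using hsumf 0
  set α : ℝ := - ∑' i, f i with hα
  have htail : ∀ k, α + ((-P k : ℤ) : ℝ) + ζ * (((S k : ℕ) : ℤ) : ℝ) = - ∑' j, f (k + j) := by
    intro k
    have h1 := hf0.sum_add_tsum_nat_add k
    have h2 := hpart k
    have h3 : ∑' j, f (j + k) = ∑' j, f (k + j) := by
      congr 1
      ext j
      rw [add_comm]
    rw [h3, h2] at h1
    rw [hα, ← h1]
    push_cast
    ring
  -- key estimate
  have key : ∀ k (m z : ℤ), (q k : ℤ) * m + p k * z ≠ 0 → |(z : ℝ)| ≤ (b k + 1) * q k →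
      3 / (4 * (q k : ℝ)) ≤ |m + ζ * z| := by
    intro k m z hne hz
    have hq : (0 : ℝ) < q k := by
      have := hSq k
      have h2 : 0 < q k := by omega
      exact_mod_cast h2
    have h1 : (1 : ℝ) ≤ |(q k : ℝ) * m + p k * z| := by
      have := Int.one_le_abs hne
      exact_mod_cast this
    have h2 : (q k : ℝ) * m + p k * z = q k * (m + ζ * z) - (q k * ζ - p k) * z := by ring
    have h3 : |(q k : ℝ) * m + p k * z| ≤ q k * |m + ζ * z| + |q k * ζ - p k| * |(z : ℝ)| := by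
      rw [h2]
      refine (abs_sub _ _).trans ?_
      rw [abs_mul, abs_mul, abs_of_pos hq]
    have h4 : |q k * ζ - p k| * |(z : ℝ)| ≤ 1 / 4 := by
      have hb1 : (1 : ℝ) ≤ b k := by exact_mod_cast hb k
      have h5 := hsmall k
      rw [le_div_iff₀ (by positivity)] at h5
      calc |q k * ζ - p k| * |(z : ℝ)| ≤ |q k * ζ - p k| * ((b k + 1) * q k) := by gcongr
        _ ≤ |q k * ζ - p k| * ((b k + b k) * q k) := by gcongr
        _ = (b k * |q k * ζ - p k| * (8 * q k)) / 4 := by ring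
        _ ≤ 1 / 4 := by linarith
    rw [div_le_iff₀ (by positivity)]
    nlinarith
  refine ⟨α, ?_, ?_, ?_⟩
  · -- not in `ℤ + ℤ ζ`
    intro u v huv
    -- a large index
    have hSk : ∀ k, k ≤ S k := by
      intro k
      induction k with
      | zero => simp
      | succ k ih =>
        rw [hS k]
        have h1 := hb k
        have h2 := hSq k
        have : 1 ≤ b k * q k := Nat.mul_pos (by omega) (by omega)
        omega
    set k : ℕ := v.natAbs with hk
    have hk1 : 4 * (v.natAbs : ℝ) ≤ q k := by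
      have h1 := hSk k
      have h2 := hSq k
      have : 4 * v.natAbs ≤ q k := by omega
      exact_mod_cast this
    have hk2 : 4 * (S k : ℝ) ≤ q k := by
      have h2 := hSq k
      have : 4 * S k ≤ q k := by omega
      exact_mod_cast this
    have hq : (0 : ℝ) < q k := by
      have := hSq k
      have h2 : 0 < q k := by omega
      exact_mod_cast h2
    have hb1 : (1 : ℝ) ≤ b k := by exact_mod_cast hb k
    have h1 := htail k
    rw [huv] at h1
    have h2 : (u : ℝ) + v * ζ + ((-P k : ℤ) : ℝ) + ζ * (((S k : ℕ) : ℤ) : ℝ) =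
        ((u - P k : ℤ) : ℝ) + ζ * ((v + S k : ℤ) : ℝ) := by
      push_cast
      ring
    rw [h2] at h1
    have hzk : |((v + S k : ℤ) : ℝ)| ≤ q k / 2 := by
      push_cast
      refine (abs_add_le _ _).trans ?_
      rw [Nat.abs_cast, Nat.cast_natAbs, Int.cast_abs] at *
      linarith
    have htk : |((u - P k : ℤ) : ℝ) + ζ * ((v + S k : ℤ) : ℝ)| ≤ 16 / 15 * e k := by
      rw [h1, abs_neg]
      exact htf k
    have hek := hsmall k
    change e k ≤ 1 / (8 * q k) at hek
    by_cases hne : (q k : ℤ) * (u - P k) + p k * (v + S k) ≠ 0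
    · have h3 := key k (u - P k) (v + S k) hne (by
        refine hzk.trans ?_
        nlinarith)
      have h4 : 3 / (4 * (q k : ℝ)) = 6 * (1 / (8 * q k)) := by
        field_simp
        norm_num
      rw [h4] at h3
      have h5 : 0 < 1 / (8 * (q k : ℝ)) := by positivity
      linarith
    · push Not at hne
      have hne' : (q k : ℝ) * ((u - P k : ℤ) : ℝ) + p k * ((v + S k : ℤ) : ℝ) = 0 := by
        exact_mod_cast hne
      -- the tail is at least `14/15 e k`
      have h3 : 14 / 15 * e k ≤ |∑' j, f (k + j)| := by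
        have h4 : ∑' j, f (k + j) = f k + ∑' j, f (k + 1 + j) := by
          rw [(hsumf k).tsum_eq_zero_add]
          simp only [add_zero]
          congr 2
          ext j
          congr 1
          ring
        have h5 := htf (k + 1)
        have h6 : e (k + 1) ≤ e k / 16 := hdec k
        rw [h4]
        have h7 : |f k| ≤ |f k + ∑' j, f (k + 1 + j)| + |∑' j, f (k + 1 + j)| := by
          have := abs_sub (f k + ∑' j, f (k + 1 + j)) (∑' j, f (k + 1 + j))
          simpa using this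
        rw [hfe k] at h7
        linarith
      have h8 : (q k : ℝ) * |((u - P k : ℤ) : ℝ) + ζ * ((v + S k : ℤ) : ℝ)| =
          |q k * ζ - p k| * |((v + S k : ℤ) : ℝ)| := by
        rw [← abs_mul]
        nth_rewrite 1 [← abs_of_pos hq]
        rw [← abs_mul]
        congr 1
        linear_combination hne'
      rw [h1, abs_neg] at h8
      have h9 : |q k * ζ - p k| ≤ e k := by
        simp only [he]
        have := hη k
        nlinarith
      have h10 : (q k : ℝ) * |∑' j, f (k + j)| ≤ e k * (q k / 2) := by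
        rw [h8]
        exact mul_le_mul h9 hzk (abs_nonneg _) (he0 k).le
      have h11 : (q k : ℝ) * (14 / 15 * e k) ≤ e k * (q k / 2) :=
        (mul_le_mul_of_nonneg_left h3 hq.le).trans h10
      have h12 := mul_pos hq (he0 k)
      nlinarith
  · intro k
    refine ⟨-P k, ?_⟩
    rw [htail, abs_neg]
    refine (htf k).trans ?_
    have := he0 k
    change 16 / 15 * e k ≤ 2 * e k
    linarith
  · intro k x₀ x₁ hx1 hx2
    have hq : (0 : ℝ) < q k := by
      have := hSq k
      have h2 : 0 < q k := by omega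
      exact_mod_cast h2
    have hb1 : (1 : ℝ) ≤ b k := by exact_mod_cast hb k
    have hk2 : 4 * (S k : ℝ) ≤ q k := by
      have h2 := hSq k
      have : 4 * S k ≤ q k := by omega
      exact_mod_cast this
    have hx1' : (1 : ℝ) ≤ x₁ := by exact_mod_cast hx1
    have h1 := htail (k + 1)
    set m : ℤ := x₀ + P (k + 1) with hm
    set z : ℤ := x₁ - S (k + 1) with hz
    have hzr : (z : ℝ) = x₁ - S k - b k * q k := by
      rw [hz, hS k]
      push_cast
      ring
    have hz1 : |(z : ℝ)| ≤ (b k + 1) * q k := by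
      rw [hzr, abs_le]
      have : (0 : ℝ) ≤ S k := by positivity
      constructor <;> nlinarith
    have hz2 : b k * q k / 2 ≤ |(z : ℝ)| := by
      rw [hzr]
      have : (0 : ℝ) ≤ S k := by positivity
      rw [abs_of_nonpos (by nlinarith)]
      linarith
    have h2 : α + x₀ + ζ * x₁ = (m + ζ * z) + (- ∑' j, f (k + 1 + j)) := by
      rw [← h1, hm, hz]
      push_cast
      ring
    have h3 : e k / 2 ≤ |(m : ℝ) + ζ * z| := by
      by_cases hne : (q k : ℤ) * m + p k * z ≠ 0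
      · refine le_trans ?_ (key k m z hne hz1)
        have h4 : 3 / (4 * (q k : ℝ)) = 6 * (1 / (8 * q k)) := by
          field_simp
          norm_num
        rw [h4]
        have h5 := hsmall k
        change e k ≤ 1 / (8 * q k) at h5
        have := he0 k
        linarith
      · push Not at hne
        have hne' : (q k : ℝ) * m + p k * z = 0 := by exact_mod_cast hne
        have h8 : (q k : ℝ) * |(m : ℝ) + ζ * z| = |q k * ζ - p k| * |(z : ℝ)| := by
          rw [← abs_mul]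
          nth_rewrite 1 [← abs_of_pos hq]
          rw [← abs_mul]
          congr 1
          linear_combination hne'
        have h9 : |q k * ζ - p k| * (b k * q k / 2) ≤ |q k * ζ - p k| * |(z : ℝ)| :=
          mul_le_mul_of_nonneg_left hz2 (abs_nonneg _)
        rw [← h8] at h9
        have h10 : (q k : ℝ) * (e k / 2) ≤ q k * |(m : ℝ) + ζ * z| := by
          refine le_trans (le_of_eq ?_) h9
          simp only [he]
          ring
        exact le_of_mul_le_mul_left h10 hq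
    have h4 := htf (k + 1)
    have h5 : e (k + 1) ≤ e k / 16 := hdec k
    have h6 : |(m : ℝ) + ζ * z| ≤ |α + x₀ + ζ * x₁| + |∑' j, f (k + 1 + j)| := by
      rw [h2]
      have := abs_sub ((m : ℝ) + ζ * z + -∑' j, f (k + 1 + j)) (-∑' j, f (k + 1 + j))
      rw [abs_neg] at this
      simpa using this
    change e k / 4 ≤ _
    have := he0 k
    linarith

/-- very good rational approximations with large denominators -/
lemma liouville_approx (ζ : ℝ) (hζ : Liouville ζ) (N Q : ℕ) : ∃ (p : ℤ) (q : ℕ), Q ≤ q ∧ 1 ≤ q ∧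
    0 < |q * ζ - p| ∧ |q * ζ - p| * (q : ℝ) ^ N < 1 := by
  obtain ⟨q, hq, p, hne, hlt⟩ := frequently_atTop.1 (hζ.frequently_exists_num (N + 1)) (max Q 1)
  have hq1 : 1 ≤ q := (le_max_right _ _).trans hq
  have hq0 : (0 : ℝ) < q := by exact_mod_cast hq1
  have e : (q : ℝ) * ζ - p = q * (ζ - p / q) := by
    field_simp
  refine ⟨p, q, (le_max_left _ _).trans hq, hq1, ?_, ?_⟩
  · rw [e, abs_mul, abs_of_pos hq0]
    exact mul_pos hq0 (abs_pos.2 (sub_ne_zero.2 hne))
  · rw [e, abs_mul, abs_of_pos hq0]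
    rw [lt_div_iff₀ (by positivity)] at hlt
    calc (q : ℝ) * |ζ - p / q| * q ^ N = |ζ - p / q| * q ^ (N + 1) := by ring
      _ < 1 := hlt

/-- the step for the value `⊤` -/
lemma step_top (ζ : ℝ) (hζ : Liouville ζ) (i Q : ℕ) (δ : ℝ) (hδ : 0 < δ) :
    ∃ (p : ℤ) (q b : ℕ), Q ≤ q ∧ 1 ≤ b ∧ 0 < |q * ζ - p| ∧ b * |q * ζ - p| ≤ δ ∧
      b * |q * ζ - p| ≤ 1 / (8 * q) ∧
      2 * (b * |q * ζ - p|) ≤ (2 * ((b : ℝ) * q)) ^ (-(i : ℝ)) := by
  obtain ⟨M, hM⟩ := exists_nat_ge (1 / δ)
  obtain ⟨p, q, hQ, hq1, h0, h1⟩ := liouville_approx ζ hζ (2 * i + 2) (max Q (max M 8))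
  have hq8 : (8 : ℝ) ≤ q := by
    have : 8 ≤ q := (le_max_right _ _).trans ((le_max_right _ _).trans hQ)
    exact_mod_cast this
  have hqM : (M : ℝ) ≤ q := by
    have : M ≤ q := (le_max_left _ _).trans ((le_max_right _ _).trans hQ)
    exact_mod_cast this
  have hq0 : (0 : ℝ) < q := by linarith
  have hpow : (1 : ℝ) ≤ (q : ℝ) ^ (2 * i) := one_le_pow₀ (by linarith)
  have h2 : |q * ζ - p| * (q : ℝ) ^ 2 < 1 := by
    calc |q * ζ - p| * (q : ℝ) ^ 2 = |q * ζ - p| * (q : ℝ) ^ 2 * 1 := by ring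
      _ ≤ |q * ζ - p| * (q : ℝ) ^ 2 * (q : ℝ) ^ (2 * i) := by gcongr
      _ = |q * ζ - p| * (q : ℝ) ^ (2 * i + 2) := by ring
      _ < 1 := h1
  refine ⟨p, q, 1, (le_max_left _ _).trans hQ, le_refl _, h0, ?_, ?_, ?_⟩
  · rw [Nat.cast_one, one_mul]
    have h3 : 1 / δ ≤ q := hM.trans hqM
    rw [div_le_iff₀ hδ] at h3
    by_contra h4
    rw [not_le] at h4
    have h5 : δ * (q : ℝ) ^ 2 < 1 := lt_trans (by gcongr) h2
    nlinarith
  · rw [Nat.cast_one, one_mul, le_div_iff₀ (by positivity)]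
    nlinarith
  · rw [Nat.cast_one, one_mul, one_mul, Real.rpow_neg (by positivity), Real.rpow_natCast,
      ← one_div, le_div_iff₀ (by positivity)]
    calc 2 * |q * ζ - p| * (2 * (q : ℝ)) ^ i
        ≤ q * |q * ζ - p| * ((q : ℝ) * q) ^ i := by
          gcongr
          · linarith
          · linarith
      _ = |q * ζ - p| * (q : ℝ) ^ (2 * i) * q := by ring
      _ ≤ |q * ζ - p| * (q : ℝ) ^ (2 * i) * (q ^ 2) := by
          gcongr
          nlinarith
      _ = |q * ζ - p| * (q : ℝ) ^ (2 * i + 2) := by ring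
      _ ≤ 1 := h1.le

set_option maxHeartbeats 2000000 in
/-- the step for a real value -/
lemma step_real (ζ : ℝ) (hζ : Liouville ζ) (c ε : ℝ) (hc : 0 ≤ c) (hε : 0 < ε) (Q : ℕ) (δ : ℝ)
    (hδ : 0 < δ) :
    ∃ (p : ℤ) (q b : ℕ), Q ≤ q ∧ 1 ≤ b ∧ 0 < |q * ζ - p| ∧ b * |q * ζ - p| ≤ δ ∧
      b * |q * ζ - p| ≤ 1 / (8 * q) ∧
      2 * (b * |q * ζ - p|) ≤ (2 * ((b : ℝ) * q)) ^ (-(c - ε)) ∧
      ((b : ℝ) * q / 2) ^ (-(c + ε)) < b * |q * ζ - p| / 4 := by
  obtain ⟨M₁, hM₁⟩ := exists_nat_ge (1 / δ)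
  obtain ⟨M₂, hM₂⟩ := exists_nat_ge ((2 : ℝ) ^ (6 + 2 * c))
  obtain ⟨M₃, hM₃⟩ := exists_nat_ge ((2 : ℝ) ^ (c / ε))
  obtain ⟨K, hK⟩ := exists_nat_ge c
  obtain ⟨M, hM⟩ := exists_nat_ge (1 / ε)
  obtain ⟨p, q, hQ, hq1, h0, h1⟩ := liouville_approx ζ hζ (K + 2 + 2 * M * (1 + K))
    (max Q (max M₁ (max M₂ (max M₃ 8))))
  have hqQ : Q ≤ q := (le_max_left _ _).trans hQ
  have hQ' := (le_max_right _ _).trans hQ
  have hqM₁ : (M₁ : ℝ) ≤ q := by exact_mod_cast (le_max_left _ _).trans hQ'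
  have hQ'' := (le_max_right _ _).trans hQ'
  have hqM₂ : (M₂ : ℝ) ≤ q := by exact_mod_cast (le_max_left _ _).trans hQ''
  have hQ3 := (le_max_right _ _).trans hQ''
  have hqM₃ : (M₃ : ℝ) ≤ q := by exact_mod_cast (le_max_left _ _).trans hQ3
  have hq8 : (8 : ℝ) ≤ q := by exact_mod_cast (le_max_right _ _).trans hQ3
  have hq0 : (0 : ℝ) < q := by linarith
  have hq1' : (1 : ℝ) ≤ q := by linarith
  set η : ℝ := |q * ζ - p| with hη
  set T : ℝ := 1 / (8 * η * (q : ℝ) ^ (c + 1)) with hT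
  have hqc : 0 < (q : ℝ) ^ (c + 1) := Real.rpow_pos_of_pos hq0 _
  have hT0 : 0 < T := by positivity
  set t : ℝ := T ^ (1 / (1 + c)) with ht
  have hTt : t ^ (1 + c) = T := by
    rw [ht, ← Real.rpow_mul hT0.le]
    have : 1 / (1 + c) * (1 + c) = 1 := by field_simp
    rw [this, Real.rpow_one]
  have ht0 : 0 < t := Real.rpow_pos_of_pos hT0 _
  -- `T` is large
  have hTbig : ((q : ℝ) ^ (2 * M)) ^ (1 + c) < T := by
    rw [hT, lt_div_iff₀ (by positivity)]
    have e1 : (q : ℝ) ^ (c + 1) ≤ (q : ℝ) ^ (K + 1) := by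
      rw [← Real.rpow_natCast]
      apply Real.rpow_le_rpow_of_exponent_le hq1'
      push_cast
      linarith
    have e2 : ((q : ℝ) ^ (2 * M)) ^ (1 + c) ≤ ((q : ℝ) ^ (2 * M)) ^ (1 + K) := by
      rw [← Real.rpow_natCast _ (1 + K)]
      apply Real.rpow_le_rpow_of_exponent_le (one_le_pow₀ hq1')
      push_cast
      linarith
    calc ((q : ℝ) ^ (2 * M)) ^ (1 + c) * (8 * η * (q : ℝ) ^ (c + 1))
        ≤ ((q : ℝ) ^ (2 * M)) ^ (1 + K) * (q * η * (q : ℝ) ^ (K + 1)) := by gcongr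
      _ = η * (q : ℝ) ^ (K + 2 + 2 * M * (1 + K)) := by
          rw [← pow_mul]
          ring
      _ < 1 := h1
  have htbig : (q : ℝ) ^ (2 * M) < t := by
    by_contra h
    rw [not_lt] at h
    have := Real.rpow_le_rpow ht0.le h (show 0 ≤ 1 + c by linarith)
    rw [hTt] at this
    linarith
  have ht1 : 1 ≤ t := (one_le_pow₀ hq1').trans htbig.le
  set b : ℕ := ⌊t⌋₊ with hb
  have hb1 : 1 ≤ b := Nat.le_floor (by simpa using ht1)
  have hb1' : (1 : ℝ) ≤ b := by exact_mod_cast hb1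
  have hbt : (b : ℝ) ≤ t := Nat.floor_le ht0.le
  have htb : t < 2 * b := by
    have := Nat.lt_floor_add_one t
    linarith
  set x : ℝ := b * q with hx
  have hx0 : 0 < x := by positivity
  have hxc : 0 < x ^ c := Real.rpow_pos_of_pos hx0 _
  -- the two bounds for `b η`
  have hup : b * η * (8 * q * x ^ c) ≤ 1 := by
    have e1 : (b : ℝ) ^ (1 + c) ≤ T := by
      rw [← hTt]
      exact Real.rpow_le_rpow (by positivity) hbt (by linarith)
    rw [hT, le_div_iff₀ (by positivity)] at e1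
    refine le_trans (le_of_eq ?_) e1
    rw [hx, Real.mul_rpow (by positivity) hq0.le, Real.rpow_add (by positivity), Real.rpow_one,
      Real.rpow_add hq0, Real.rpow_one]
    ring
  have hlow : 1 < b * η * (16 * q * 2 ^ c * x ^ c) := by
    have e1 : T < (2 * (b : ℝ)) ^ (1 + c) := by
      rw [← hTt]
      exact Real.rpow_lt_rpow ht0.le htb (by linarith)
    rw [hT, div_lt_iff₀ (by positivity)] at e1
    refine lt_of_lt_of_le e1 (le_of_eq ?_)
    rw [hx, Real.mul_rpow (by positivity) hq0.le, Real.rpow_add (by positivity), Real.rpow_one,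
      Real.rpow_add hq0, Real.rpow_one, Real.mul_rpow (by norm_num) (by positivity)]
    ring
  have hx1 : 1 ≤ x := by
    rw [hx]
    nlinarith
  have hxc1 : 1 ≤ x ^ c := Real.one_le_rpow hx1 hc
  have hbη : 0 < b * η := by positivity
  have h8 : b * η * (8 * q) ≤ 1 := by
    refine le_trans ?_ hup
    have : b * η * (8 * q * x ^ c) = b * η * (8 * q) * x ^ c := by ring
    rw [this]
    exact le_mul_of_one_le_right (by positivity) hxc1
  have hxq : (q : ℝ) ≤ x := by
    rw [hx]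
    nlinarith
  refine ⟨p, q, b, hqQ, hb1, h0, ?_, ?_, ?_, ?_⟩
  · have h3 : 1 / δ ≤ q := hM₁.trans hqM₁
    rw [div_le_iff₀ hδ] at h3
    have : b * η * (8 * q) ≤ δ * (8 * q) := by
      refine h8.trans ?_
      nlinarith
    exact le_of_mul_le_mul_right this (by positivity)
  · rw [le_div_iff₀ (by positivity)]
    exact h8
  · -- upper bound
    have e1 : (2 * x) ^ (-(c - ε)) = (2 * x) ^ ε / (2 ^ c * x ^ c) := by
      rw [show -(c - ε) = ε - c by ring, Real.rpow_sub (by positivity),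
        Real.mul_rpow (y := x) (z := c) (by norm_num) hx0.le]
    rw [e1, le_div_iff₀ (by positivity)]
    have e2 : (2 : ℝ) ^ c ≤ (2 * x) ^ ε := by
      have e3 : (2 : ℝ) ^ (c / ε) ≤ 2 * x := by
        refine hM₃.trans ?_
        linarith
      have e4 := Real.rpow_le_rpow (by positivity) e3 hε.le
      rw [← Real.rpow_mul (by norm_num)] at e4
      have : c / ε * ε = c := by field_simp
      rw [this] at e4
      exact e4
    have e3 : 0 < (2 : ℝ) ^ c := by positivity
    calc 2 * (b * η) * (2 ^ c * x ^ c) ≤ 2 * (b * η) * (2 ^ c * x ^ c) * q := by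
          exact le_mul_of_one_le_right (by positivity) hq1'
      _ = (b * η * (8 * q * x ^ c)) * 2 ^ c / 4 := by ring
      _ ≤ 1 * 2 ^ c / 4 := by gcongr
      _ ≤ (2 * x) ^ ε := by linarith
  · -- lower bound
    have hx2 : (q : ℝ) ^ (2 * M) < x / 2 := by
      have : x / 2 = b * (q / 2) := by
        rw [hx]
        ring
      rw [this]
      nlinarith
    have e1 : (x / 2) ^ (-(c + ε)) = 2 ^ c / (x ^ c * (x / 2) ^ ε) := by
      rw [Real.rpow_neg (by positivity), Real.rpow_add (by positivity),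
        Real.div_rpow (z := c) hx0.le (by norm_num)]
      field_simp
    have e2 : 2 ^ (6 + 2 * c) * (q : ℝ) ≤ (x / 2) ^ ε := by
      have e3 : (2 : ℝ) ^ (6 + 2 * c) * q ≤ q ^ 2 := by
        have := hM₂.trans hqM₂
        nlinarith
      refine e3.trans ?_
      have e4 : ((q : ℝ) ^ (2 * M)) ^ ε ≤ (x / 2) ^ ε := Real.rpow_le_rpow (by positivity) hx2.le
        hε.le
      refine le_trans ?_ e4
      rw [← Real.rpow_natCast, ← Real.rpow_natCast, ← Real.rpow_mul hq0.le]
      apply Real.rpow_le_rpow_of_exponent_le hq1'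
      push_cast
      rw [div_le_iff₀ hε] at hM
      nlinarith
    have e5 : (2 : ℝ) ^ (6 + 2 * c) = 64 * 2 ^ c * 2 ^ c := by
      rw [Real.rpow_add (by norm_num), two_mul, Real.rpow_add (by norm_num)]
      have : (2 : ℝ) ^ (6 : ℝ) = 64 := by
        rw [show (6 : ℝ) = ((6 : ℕ) : ℝ) by norm_num, Real.rpow_natCast]
        norm_num
      rw [this]
      ring
    rw [e5] at e2
    rw [e1, div_lt_iff₀ (by positivity)]
    have e6 : 0 < (2 : ℝ) ^ c := by positivity
    calc (2 : ℝ) ^ c = 2 ^ c * 1 := by ring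
      _ < 2 ^ c * (b * η * (16 * q * 2 ^ c * x ^ c)) := by gcongr
      _ = b * η / 4 * (x ^ c * (64 * 2 ^ c * 2 ^ c * q)) := by ring
      _ ≤ b * η / 4 * (x ^ c * (x / 2) ^ ε) := by gcongr

/-- sufficient condition for belonging to the uniform set -/
lemma mem_uniformSet (ζ α : ℝ) (p : ℕ → ℤ) (q b S : ℕ → ℕ)
    (hS : ∀ i, S (i + 1) = S i + b i * q i) (hSq : ∀ i, 4 * S i + 1 ≤ q i) (hb : ∀ i, 1 ≤ b i)
    (happ : ∀ k, ∃ x₀ : ℤ, |α + x₀ + ζ * ((S k : ℕ) : ℤ)| ≤ 2 * (b k * |q k * ζ - p k|))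
    (lo : ℕ → ℝ) (hlo : ∀ i, 2 * (b i * |q i * ζ - p i|) ≤ (2 * ((b i : ℝ) * q i)) ^ (-(lo i)))
    (w : ℝ) (hw0 : 0 ≤ w) (hw : ∀ᶠ i in atTop, w ≤ lo i) : w ∈ uniformSet ζ α := by
  obtain ⟨k₀, hk₀⟩ := eventually_atTop.1 hw
  have hbq : ∀ i, 1 ≤ b i * q i := fun i => Nat.mul_pos (by have := hb i; omega)
    (by have := hSq i; omega)
  have hmono : StrictMono S := strictMono_nat_of_lt_succ fun i => by
    rw [hS i]
    have := hbq i
    omega
  refine ⟨S (max k₀ 1), fun X hX => ?_⟩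
  -- the index `k` with `S k ≤ X < S (k + 1)`
  have hX0 : 0 ≤ X := le_trans (by positivity) hX
  have hfin : ∃ k, X < S (k + 1) := by
    obtain ⟨n, hn⟩ := exists_nat_gt X
    refine ⟨n, hn.trans_le ?_⟩
    have : n ≤ S (n + 1) := (hmono.le_apply (x := n)).trans (hmono.monotone (by omega))
    exact_mod_cast this
  classical
  set k := Nat.find hfin with hk
  have hk1 : X < S (k + 1) := Nat.find_spec hfin
  have hkS : max k₀ 1 ≤ k := by
    have : (S (max k₀ 1) : ℝ) < S (k + 1) := lt_of_le_of_lt hX hk1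
    have h2 : S (max k₀ 1) < S (k + 1) := by exact_mod_cast this
    have := hmono.lt_iff_lt.1 h2
    omega
  have hk2 : (S k : ℝ) ≤ X := by
    rcases Nat.exists_eq_succ_of_ne_zero (show k ≠ 0 by
      have := (le_max_right k₀ 1).trans hkS
      omega) with ⟨j, hj⟩
    have := Nat.find_min hfin (m := j) (by rw [← hk]; omega)
    rw [not_lt] at this
    rw [hj]
    exact this
  obtain ⟨x₀, hx₀⟩ := happ k
  refine ⟨x₀, (S k : ℕ), ?_, by exact_mod_cast hk2, ?_⟩
  · have h1 : k ≤ S k := hmono.le_apply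
    have h2 := (le_max_right k₀ 1).trans hkS
    have : 1 ≤ S k := by omega
    exact_mod_cast this
  · refine hx₀.trans ((hlo k).trans ?_)
    have hbq' : (1 : ℝ) ≤ b k * q k := by exact_mod_cast hbq k
    have hle : w ≤ lo k := hk₀ k ((le_max_left k₀ 1).trans hkS)
    have hX1 : (1 : ℝ) ≤ X := by
      have h1 : k ≤ S k := hmono.le_apply
      have h2 := (le_max_right k₀ 1).trans hkS
      have : 1 ≤ S k := by omega
      have : (1 : ℝ) ≤ S k := by exact_mod_cast this
      linarith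
    have hX2 : X ≤ 2 * ((b k : ℝ) * q k) := by
      have h1 : (S (k + 1) : ℝ) = S k + b k * q k := by
        rw [hS k]
        push_cast
        ring
      have h2 : (S k : ℝ) ≤ b k * q k := by
        have h3 := hSq k
        have h4 : S k ≤ q k := by omega
        have h5 : (S k : ℝ) ≤ q k := by exact_mod_cast h4
        have h6 : (1 : ℝ) ≤ b k := by exact_mod_cast hb k
        nlinarith
      linarith
    calc (2 * ((b k : ℝ) * q k)) ^ (-(lo k)) ≤ (2 * ((b k : ℝ) * q k)) ^ (-w) :=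
          Real.rpow_le_rpow_of_exponent_le (by linarith) (by linarith)
      _ ≤ X ^ (-w) := Real.rpow_le_rpow_of_nonpos (by linarith) hX2 (by linarith)

lemma zero_mem_uniformSet (ζ α : ℝ) : (0 : ℝ) ∈ uniformSet ζ α := by
  refine ⟨1, fun X hX => ⟨-round (α + ζ), 1, le_refl _, by simpa using hX, ?_⟩⟩
  rw [neg_zero, Real.rpow_zero]
  have h := abs_sub_round (α + ζ)
  have e : α + ((-round (α + ζ) : ℤ) : ℝ) + ζ * ((1 : ℤ) : ℝ) = α + ζ - round (α + ζ) := by
    push_cast
    ring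
  rw [e]
  linarith

lemma zero_le_uniformExponent (ζ α : ℝ) : 0 ≤ uniformExponent ζ α :=
  le_sSup ⟨0, zero_mem_uniformSet ζ α, by simp⟩

/-- For every Liouville number `ζ` the spectrum of the uniform inhomogeneous exponent is the whole
interval `[0, ∞]`. -/
theorem result (ζ : ℝ) (hζ : Liouville ζ) : spectrum ζ = Set.Icc (0 : EReal) ⊤ := by
  ext v
  simp only [Set.mem_Icc, le_top, and_true]
  constructor
  · rintro ⟨α, -, rfl⟩
    exact zero_le_uniformExponent ζ α
  · intro hv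
    rcases eq_or_ne v ⊤ with rfl | hvt
    · -- the value `⊤`
      obtain ⟨p, q, b, S, hS0, hS, hSq, hb, hη, hdec, hsmall, hR⟩ := exists_data ζ
        (fun i p q b => 2 * (b * |q * ζ - p|) ≤ (2 * ((b : ℝ) * q)) ^ (-(i : ℝ)))
        (fun i S δ hδ => step_top ζ hζ i (4 * S + 1) δ hδ)
      obtain ⟨α, hα1, hα2, -⟩ := exists_alpha ζ p q b S hS0 hS hSq hb hη hdec hsmall
      refine ⟨α, hα1, ?_⟩
      rw [uniformExponent, EReal.eq_top_iff_forall_lt]
      intro y
      refine lt_of_lt_of_le (EReal.coe_lt_coe_iff.2 (show y < max (y + 1) 0 from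
        lt_of_lt_of_le (lt_add_one y) (le_max_left _ _))) (le_sSup ⟨max (y + 1) 0, ?_, rfl⟩)
      refine mem_uniformSet ζ α p q b S hS hSq hb hα2 (fun i => (i : ℝ)) hR _ (le_max_right _ _) ?_
      exact tendsto_natCast_atTop_atTop.eventually_ge_atTop _
    · -- a real value
      have hvb : v ≠ ⊥ := by
        rintro rfl
        simp at hv
      lift v to ℝ using ⟨hvt, hvb⟩
      have hv' : (0 : ℝ) ≤ v := by exact_mod_cast hv
      obtain ⟨p, q, b, S, hS0, hS, hSq, hb, hη, hdec, hsmall, hR⟩ := exists_data ζ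
        (fun i p q b => 2 * (b * |q * ζ - p|) ≤ (2 * ((b : ℝ) * q)) ^ (-(v - 1 / ((i : ℝ) + 1))) ∧
          ((b : ℝ) * q / 2) ^ (-(v + 1 / ((i : ℝ) + 1))) < b * |q * ζ - p| / 4)
        (fun i S δ hδ => step_real ζ hζ v (1 / ((i : ℝ) + 1)) hv' (by positivity) (4 * S + 1) δ hδ)
      obtain ⟨α, hα1, hα2, hα3⟩ := exists_alpha ζ p q b S hS0 hS hSq hb hη hdec hsmall
      refine ⟨α, hα1, le_antisymm ?_ ?_⟩
      · -- the exponent is at most `v`
        refine sSup_le ?_
        rintro _ ⟨w, ⟨X₀, hX₀⟩, rfl⟩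
        by_contra hcon
        rw [not_le] at hcon
        have hvw : v < w := EReal.coe_lt_coe_iff.1 hcon
        obtain ⟨k₀, hk₀⟩ := exists_nat_one_div_lt (sub_pos.2 hvw)
        obtain ⟨k₁, hk₁⟩ := exists_nat_ge (max X₀ 1)
        set k := max k₀ k₁ with hk
        have hSk : ∀ k, k ≤ S k := by
          intro k
          induction k with
          | zero => simp
          | succ k ih =>
            rw [hS k]
            have h1 := hb k
            have h2 := hSq k
            have : 1 ≤ b k * q k := Nat.mul_pos (by omega) (by omega)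
            omega
        have hX : (k : ℝ) ≤ b k * q k / 2 := by
          have h1 := hSk k
          have h2 := hSq k
          have h3 : (1 : ℝ) ≤ b k := by exact_mod_cast hb k
          have h4 : 2 * k ≤ q k := by omega
          have h5 : 2 * (k : ℝ) ≤ q k := by exact_mod_cast h4
          nlinarith
        have hkk₁ : (k₁ : ℝ) ≤ k := by exact_mod_cast le_max_right _ _
        have hXX₀ : X₀ ≤ b k * q k / 2 := ((le_max_left _ _).trans hk₁).trans (hkk₁.trans hX)
        have hX1 : 1 ≤ (b k : ℝ) * q k / 2 := ((le_max_right _ _).trans hk₁).trans (hkk₁.trans hX)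
        obtain ⟨x₀, x₁, hx1, hx2, hx3⟩ := hX₀ _ hXX₀
        have h1 := hα3 k x₀ x₁ hx1 (by linarith)
        have h2 := (hR k).2
        have h3 : ((b k : ℝ) * q k / 2) ^ (-w) ≤
            ((b k : ℝ) * q k / 2) ^ (-(v + 1 / ((k : ℝ) + 1))) := by
          apply Real.rpow_le_rpow_of_exponent_le hX1
          have h4 : 1 / ((k : ℝ) + 1) ≤ 1 / ((k₀ : ℝ) + 1) := by
            apply one_div_le_one_div_of_le (by positivity)
            have : (k₀ : ℝ) ≤ k := by exact_mod_cast le_max_left _ _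
            linarith
          linarith
        linarith
      · -- the exponent is at least `v`
        by_contra hcon
        rw [not_le] at hcon
        obtain ⟨w, hw1, hw2⟩ := EReal.lt_iff_exists_real_btwn.1 hcon
        have hw0 : (0 : ℝ) ≤ w := by
          have := (zero_le_uniformExponent ζ α).trans hw1.le
          exact_mod_cast this
        have hwv : w < v := by exact_mod_cast hw2
        have hmem : w ∈ uniformSet ζ α := by
          refine mem_uniformSet ζ α p q b S hS hSq hb hα2 (fun i => v - 1 / ((i : ℝ) + 1))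
            (fun i => (hR i).1) w hw0 ?_
          have ht : Tendsto (fun i : ℕ => v - 1 / ((i : ℝ) + 1)) atTop (𝓝 (v - 0)) :=
            tendsto_const_nhds.sub tendsto_one_div_add_atTop_nhds_zero_nat
          rw [sub_zero] at ht
          filter_upwards [ht.eventually (eventually_gt_nhds hwv)] with i hi using hi.le
        have : (w : EReal) ≤ uniformExponent ζ α := le_sSup ⟨w, hmem, rfl⟩
        exact absurd hw1 (not_lt.2 this)

end Pool.Agent.Results.MP_12d26a_nt.Spectrum
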